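import Pool.Agent.helper55.NK.Spec

/-! Project NK, row MO1: `r1` is monotone. -/

set_option autoImplicit false

namespace Pool.Agent.helper98.NK

open Pool.Agent.NK Finset

theorem MO1 : MO1_stmt := by
  intro i j w i' j' w' hi hj hw hii hjj hww
  have hw0 : 0 < w := by linarith
  have hw0' : 0 < w' := by linarith
  have hi0 : 0 < i := by linarith
  have hi0' : 0 < i' := by linarith
  have hj0 : 0 < j := by linarith
  have hj0' : 0 < j' := by linarith
  have e : ∀ i j w : ℝ, 0 < i → 0 < j → 0 < w →
      r1 i j w = (i * w / (i * w + 1)) * ((j * w - 1) / (w * (j + 1))) := by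
    intro i j w hi hj hw
    unfold r1
    have h1 : i * w + 1 ≠ 0 := by positivity
    have h2 : j + 1 ≠ 0 := by positivity
    field_simp
  rw [e i j w hi0 hj0 hw0, e i' j' w' hi0' hj0' hw0']
  have hiw : i * w ≤ i' * w' := mul_le_mul hii hww hw0.le hi0'.le
  have hjw : 0 ≤ j * w - 1 := by nlinarith
  have hF : i * w / (i * w + 1) ≤ i' * w' / (i' * w' + 1) := by
    rw [div_le_div_iff₀ (by positivity) (by positivity)]
    nlinarith
  have hG1 : (j * w - 1) / (w * (j + 1)) ≤ (j' * w - 1) / (w * (j' + 1)) := by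
    rw [div_le_div_iff₀ (by positivity) (by positivity)]
    have h3 : (j' * w - 1) * (w * (j + 1)) - (j * w - 1) * (w * (j' + 1)) = w * ((w + 1) * (j' - j)) := by ring
    have h4 : 0 ≤ w * ((w + 1) * (j' - j)) :=
      mul_nonneg hw0.le (mul_nonneg (by linarith) (by linarith))
    linarith
  have hG2 : (j' * w - 1) / (w * (j' + 1)) ≤ (j' * w' - 1) / (w' * (j' + 1)) := by
    rw [div_le_div_iff₀ (by positivity) (by positivity)]
    have h3 : (j' * w' - 1) * (w * (j' + 1)) - (j' * w - 1) * (w' * (j' + 1)) = (j' + 1) * (w' - w) := by ring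
    have h4 : 0 ≤ (j' + 1) * (w' - w) := mul_nonneg (by linarith) (by linarith)
    linarith
  exact mul_le_mul hF (hG1.trans hG2) (div_nonneg hjw (by positivity)) (by positivity)

end Pool.Agent.helper98.NK
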